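import Pool.Agent.X171.SP.Sep

/-!
# MP_d0fcce_an, Q1: separable semiprojective Banach lattices are `1⁺`-projective

Let `A` be separable and semiprojective and let `T : A → X / J` be a lattice homomorphism. There
is a separable closed sublattice `X₀` of `X` such that `T` factors through a lattice homomorphism
`A → X₀ / (X₀ ∩ J)` of the same norm (`exists_factor`). So let `X` be separable. Then `X` has
contractive lattice homomorphisms `M k : X → X` (multiplication with `1 - v k`, where the `v k`
form an approximate unit of `J`) with `x - M k x ∈ J` and `M k x → 0` for `x ∈ J`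
(`exists_approx`). Let `B` be the separable Banach lattice of the sequences `(M k x + z k)` with
`x ∈ X`, `z k ∈ J`, `z k → 0`. The sequences in `B` with values in `J` form a closed ideal `I`, the
closure of the union of the ideals `I n` of the sequences in `I` which vanish from `n` on, and
`x + J ↦ (M k x) + I` is a contractive lattice homomorphism `X / J → B / I`. Semiprojectivity gives
lifts of `A → X / J → B / I` to `B / I n` of norm at most `1 + ε`; the composition with the
evaluation at `n` is a lift `A → X` of `T` (`lift_of_semiprojective`).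
-/

namespace Pool.Agent.Results.MP_d0fcce_an.SeparableSemiprojective

open Pool.Agent.X171.BL Pool.Agent.X171.SP

universe u v

/-- **Theorem.** For separable Banach lattices, semiprojectivity and `1⁺`-projectivity
coincide. -/
theorem result (A : Type u) [NormedAddCommGroup A] [Lattice A] [NormedSpace ℝ A]
    [BanachLattice A] [TopologicalSpace.SeparableSpace A] :
    (Semiprojective.{u, v} A → OnePlusProjective.{u, v} A) ∧
    (OnePlusProjective.{u, v} A → Semiprojective.{u, v} A) := by
  refine ⟨fun h => onePlusProjective_of_semiprojective h, fun h B _ _ _ _ _ I J hI hJ φ hφ hφ1 => ?_⟩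
  refine ⟨0, fun ε hε => ?_⟩
  obtain ⟨ψ, hψ, hψ1, hψ2⟩ := h B J φ hφ ε hε
  refine ⟨(I 0).proj.comp ψ, (I 0).mk_hom.comp hψ, ?_, fun a b hb => ?_⟩
  · refine (ContinuousLinearMap.opNorm_comp_le _ _).trans ?_
    have h2 : ‖(I 0).proj‖ ≤ 1 := ContinuousLinearMap.opNorm_le_bound _ zero_le_one fun x => by
      rw [one_mul]
      exact (I 0).norm_mk_le x
    calc ‖(I 0).proj‖ * ‖ψ‖ ≤ 1 * ((1 + ε) * ‖φ‖) := by gcongr
      _ = (1 + ε) * ‖φ‖ := one_mul _
      _ ≤ (1 + ε) * 1 := by gcongr
      _ = 1 + ε := mul_one _
  · rw [← hψ1, J.mk_eq_iff]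
    have h3 : b - ψ a ∈ I 0 := (I 0).mk_eq_iff.1 hb
    have h4 : b - ψ a ∈ (J : Set B) := by
      rw [hJ]
      exact subset_closure (Set.mem_iUnion.2 ⟨0, h3⟩)
    exact h4

end Pool.Agent.Results.MP_d0fcce_an.SeparableSemiprojective
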